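import Pool.Agent.H41.IndSum.Link

/-!
# Indecomposables in permutation classes

If a permutation class `C` (sum closed or not) contains unboundedly many indecomposable permutations
of some length (that is, the sequence `|ind(C)_n|` is unbounded), then it contains at least `n - 1`
indecomposable permutations of length `n` for every `n`.

The definitions of `AllPerm`, `Contains`, `IsClass`, `directSum`, `Indecomposable` and `ind` are in
`Pool.Agent.H41.IndSum.Link`.

Outline of the proof. Call a set of entries of a permutation connected if its inversion graph is
connected; a permutation is indecomposable iff the set of all its entries is connected. Fix `n ≥ 3`
and suppose that a permutation `π` of length `N` is indecomposable and does not contain `n - 1`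
different indecomposable permutations of length `n`. If `π` contains a long decreasing subsequence,
then all but a bounded number of the entries of `π` form a decreasing interval. If not, and if some
entry is to the right of and below (or to the left of and above) all the entries of a long increasing
subsequence, then all but a bounded number of the entries form an increasing interval. Otherwise all
entries have a bounded number of inversions, and a shortest path in the inversion graph from the
leftmost to the rightmost entry is an increasing oscillation which contains all the entries in the
middle of `π`. In all three cases `π` is given in the middle by one of boundedly many rules, so there
is a bounded number of such `π` of length `N`, with a bound which depends only on `n`.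
-/

set_option autoImplicit false

namespace Pool.Agent.Results.MP_2d4b98_co.UnboundedInd

open Pool.Agent.H41.IndSum

theorem result (C : Set AllPerm) (hC : IsClass C) (hunb : ∀ B : ℕ, ∃ n : ℕ, B < (ind C n).ncard)
    (n : ℕ) (_hn : 1 ≤ n) : n - 1 ≤ (ind C n).ncard :=
  main hC hunb n

end Pool.Agent.Results.MP_2d4b98_co.UnboundedInd
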